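import Pool.Agent.T2H62.MN.A
import Pool.Agent.T2H62.MT.C

set_option autoImplicit false

/-! # Late windows of random primes -/

namespace Pool.Agent.T2H62.MN

open Finset Filter Topology
open Pool.Agent.T2H62.MD (nu SS SS_tendsto nu_le)
open Pool.Agent.T2H53.GW

variable {R : Set ℕ} [DecidablePred (· ∈ R)]

theorem late_of {A : ℝ} (hA : 0 < A) (h : ∀ n, pr A n = 0 → n ∉ R) : Late R := by
  intro y
  have hTn : Tendsto (fun n : ℕ => (n : ℝ)) atTop atTop := tendsto_natCast_atTop_atTop
  have hL : Tendsto (fun n : ℕ => Real.log (n : ℝ)) atTop atTop := Real.tendsto_log_atTop.comp hTn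
  filter_upwards [hL.eventually_ge_atTop (y / A), eventually_ge_atTop 1] with x h1 h2 p hp
  rcases Nat.lt_or_ge y p with h3 | h3
  · exact lt_of_le_of_lt (nu_le _ p) (lt_of_le_of_lt (Wd_card y x) h3)
  · have hsub : (Wd R y x).image (fun h => h % p) ⊆ (range p).erase ((p - x % p) % p) := by
      intro r hr
      rw [mem_image] at hr
      obtain ⟨j, hj, rfl⟩ := hr
      rw [mem_erase, mem_range]
      refine ⟨?_, Nat.mod_lt _ hp.pos⟩
      intro h4
      have h5 : p ∣ x + j := by
        apply Nat.dvd_of_mod_eq_zero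
        rw [Nat.add_mod, h4, Nat.add_mod_mod]
        have h6 : x % p + (p - x % p) = p := by
          have := Nat.mod_lt x hp.pos
          omega
        rw [h6, Nat.mod_self]
      have h6 := mem_filter.1 hj
      refine h (x + j) (Pool.Agent.T2H62.MT.pr_zero A (x + j) p hp ?_ h5) h6.2
      have h7 : Real.log (x : ℝ) ≤ Real.log ((x + j : ℕ) : ℝ) :=
        Real.log_le_log (by exact_mod_cast h2) (by push_cast; linarith [Nat.cast_nonneg (α := ℝ) j])
      rw [div_le_iff₀ hA] at h1
      have h8 : (p : ℝ) ≤ y := by exact_mod_cast h3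
      nlinarith
    have h9 := card_le_card hsub
    rw [card_erase_of_mem (mem_range.2 (Nat.mod_lt _ hp.pos)), card_range] at h9
    have := hp.pos
    unfold nu
    omega

/-- an eventual bound which is attained infinitely often is the upper limit -/
theorem limsup_eq (f : ℕ → ℕ) (K : ℕ) (h1 : ∀ᶠ x in atTop, f x ≤ K) (h2 : ∃ᶠ x in atTop, K ≤ f x) :
    limsup f atTop = K := by
  apply le_antisymm
  · exact limsup_le_of_le (by isBoundedDefault) h1
  · exact le_limsup_of_frequently_le h2 (isBoundedUnder_of_eventually_le h1)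

end Pool.Agent.T2H62.MN
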