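import Pool.Agent.T2H62.MN.C
import Pool.Agent.T2H62.MD.W

set_option autoImplicit false

/-! # The number of random primes in short intervals and between squares, sharp -/

namespace Pool.Agent.T2H62.MN

open Finset Filter Topology MeasureTheory ProbabilityTheory
open Pool.Agent.T2H53.GW
open Pool.Agent.T2H62.MD

variable {Ω : Type*} [MeasurableSpace Ω] {μ : Measure Ω} [IsProbabilityMeasure μ] {S : ℕ → Set Ω}

/-- one exponent -/
theorem cnt_sharp_one (A : ℝ) (hm : ∀ n, MeasurableSet (S n)) (hi : iIndepSet S μ) (hp : ∀ n, μ.real (S n) = pr A n)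
    (e : ℝ) (he : 0 < e) :
    ∀ᵐ ω ∂μ, ∀ᶠ N : ℕ in atTop, ∀ M : ℕ, (N : ℝ) + (N : ℝ) ^ (2 * e) ≤ M → M ≤ 2 * N →
      |cnt (Ioc N M) S ω - ∑ n ∈ Ioc N M, pr A n| ≤ (N : ℝ) ^ e * Real.sqrt ((M : ℝ) - N) := by
  classical
  obtain ⟨B, hB⟩ : ∃ B : ℕ → ℕ → Set Ω, B = fun (N M : ℕ) => {ω | (N : ℝ) ^ e * Real.sqrt ((M : ℝ) - N) ≤
      |cnt (Ioc N M) S ω - ∑ n ∈ Ioc N M, μ.real (S n)|} := ⟨_, rfl⟩
  obtain ⟨I, hI⟩ : ∃ I : ℕ → Finset ℕ, I = fun N : ℕ => (Icc N (2 * N)).filter (fun M : ℕ => (N : ℝ) + (N : ℝ) ^ (2 * e) ≤ M) :=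
    ⟨_, rfl⟩
  have hprob : ∀ᶠ N : ℕ in atTop, μ.real (⋃ M ∈ I N, B N M) ≤ 4 * (1 / (N : ℝ) ^ 2) := by
    filter_upwards [log_pow_small 1 12 (2 * e) (by positivity) (by norm_num), eventually_ge_atTop 3] with N e2 e3
    have hN0 : (0 : ℝ) < N := by exact_mod_cast (by omega : 0 < N)
    have hN1 : (1 : ℝ) ≤ N := by exact_mod_cast (by omega : 1 ≤ N)
    rw [pow_one] at e2
    have hone : ∀ M ∈ I N, μ.real (B N M) ≤ 2 * (1 / (N : ℝ) ^ 3) := by
      intro M hM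
      rw [hI, mem_filter, mem_Icc] at hM
      obtain ⟨⟨hM1, hM2⟩, hM3⟩ := hM
      have hNe : 0 < (N : ℝ) ^ (2 * e) := by positivity
      obtain ⟨D, hD⟩ : ∃ D : ℝ, D = (M : ℝ) - N := ⟨_, rfl⟩
      have hD0 : 0 < D := by rw [hD]; linarith
      have hD1 : (N : ℝ) ^ (2 * e) ≤ D := by rw [hD]; linarith
      have hsq : ((N : ℝ) ^ e * Real.sqrt D) ^ 2 = (N : ℝ) ^ (2 * e) * D := by
        rw [mul_pow, Real.sq_sqrt hD0.le, ← Real.rpow_natCast, ← Real.rpow_mul hN0.le]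
        congr 2
        push_cast
        ring
      have hle : (N : ℝ) ^ e * Real.sqrt D ≤ D := by
        apply le_of_sq_le_sq _ hD0.le
        rw [hsq, sq]
        exact mul_le_mul_of_nonneg_right hD1 hD0.le
      have h1 : ∑ n ∈ Ioc N M, μ.real (S n) ≤ D := by
        calc ∑ n ∈ Ioc N M, μ.real (S n) ≤ ∑ _n ∈ Ioc N M, (1 : ℝ) :=
              sum_le_sum fun n _ => measureReal_le_one
          _ = D := by
            rw [sum_const, Nat.card_Ioc, nsmul_eq_mul, mul_one, Nat.cast_sub hM1, hD]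
      have h2 := chernoff S hm hi (Ioc N M) D ((N : ℝ) ^ e * Real.sqrt D) h1 (by positivity) hle hD0
      rw [hB]
      show μ.real {ω | (N : ℝ) ^ e * Real.sqrt ((M : ℝ) - N) ≤ |cnt (Ioc N M) S ω - ∑ n ∈ Ioc N M, μ.real (S n)|} ≤ _
      rw [← hD]
      refine h2.trans (mul_le_mul_of_nonneg_left ?_ (by norm_num))
      rw [hsq]
      have h3 : (N : ℝ) ^ (2 * e) * D / (4 * D) = (N : ℝ) ^ (2 * e) / 4 := by field_simp
      rw [h3]
      calc Real.exp (-((N : ℝ) ^ (2 * e) / 4)) ≤ Real.exp (-(3 * Real.log N)) := Real.exp_le_exp.2 (by linarith)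
        _ = 1 / (N : ℝ) ^ 3 := by
          rw [Real.exp_neg, show 3 * Real.log (N : ℝ) = Real.log ((N : ℝ) ^ 3) by rw [Real.log_pow]; norm_num,
            Real.exp_log (by positivity), one_div]
    have hcard : ((I N).card : ℝ) ≤ 2 * N := by
      have h1 : (I N).card ≤ N + 1 := by
        rw [hI]
        refine (card_filter_le _ _).trans ?_
        rw [Nat.card_Icc]
        omega
      have h2 : ((I N).card : ℝ) ≤ (N : ℝ) + 1 := by exact_mod_cast h1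
      linarith
    calc μ.real (⋃ M ∈ I N, B N M) ≤ ∑ M ∈ I N, μ.real (B N M) := measureReal_biUnion_finset_le _ _
      _ ≤ ∑ M ∈ I N, 2 * (1 / (N : ℝ) ^ 3) := sum_le_sum hone
      _ = (I N).card * (2 * (1 / (N : ℝ) ^ 3)) := by rw [sum_const, nsmul_eq_mul]
      _ ≤ (2 * N) * (2 * (1 / (N : ℝ) ^ 3)) := mul_le_mul_of_nonneg_right hcard (by positivity)
      _ = 4 * (1 / (N : ℝ) ^ 2) := by
          field_simp
          ring
  obtain ⟨n₀, hn₀⟩ := eventually_atTop.1 hprob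
  have hsum : Summable (fun N : ℕ => 4 * (1 / (N : ℝ) ^ 2)) :=
    (Real.summable_one_div_nat_pow.2 (by norm_num)).mul_left _
  have h2 := bc (μ := μ) (fun N => ⋃ M ∈ I N, B N M) n₀ _ hsum (fun n hn => hn₀ n hn)
  filter_upwards [h2] with ω hω
  filter_upwards [hω, eventually_ge_atTop 3] with N h3 h4' M hM1 hM2
  have hN0 : (0 : ℝ) < N := by exact_mod_cast (by omega : 0 < N)
  have hNe : 0 < (N : ℝ) ^ (2 * e) := by positivity
  have hMmem : M ∈ I N := by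
    rw [hI, mem_filter, mem_Icc]
    refine ⟨⟨?_, hM2⟩, hM1⟩
    have : (N : ℝ) ≤ M := by linarith
    exact_mod_cast this
  have h5 : ω ∉ B N M := by
    intro h6
    apply h3
    simp only [Set.mem_iUnion]
    exact ⟨M, hMmem, h6⟩
  rw [hB] at h5
  have h8 : ∑ n ∈ Ioc N M, μ.real (S n) = ∑ n ∈ Ioc N M, pr A n := sum_congr rfl fun n _ => hp n
  by_contra h7
  push Not at h7
  apply h5
  show (N : ℝ) ^ e * Real.sqrt ((M : ℝ) - N) ≤ |cnt (Ioc N M) S ω - ∑ n ∈ Ioc N M, μ.real (S n)|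
  rw [h8]
  exact h7.le

/-- all exponents -/
theorem cnt_sharp (A : ℝ) (hm : ∀ n, MeasurableSet (S n)) (hi : iIndepSet S μ) (hp : ∀ n, μ.real (S n) = pr A n) :
    ∀ᵐ ω ∂μ, ∀ e : ℝ, 0 < e → ∀ᶠ N : ℕ in atTop, ∀ M : ℕ, (N : ℝ) + (N : ℝ) ^ (2 * e) ≤ M → M ≤ 2 * N →
      |cnt (Ioc N M) S ω - ∑ n ∈ Ioc N M, pr A n| ≤ (N : ℝ) ^ e * Real.sqrt ((M : ℝ) - N) := by
  have h : ∀ᵐ ω ∂μ, ∀ i : ℕ, ∀ᶠ N : ℕ in atTop, ∀ M : ℕ, (N : ℝ) + (N : ℝ) ^ (2 * (1 / ((i : ℝ) + 1))) ≤ M → M ≤ 2 * N →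
      |cnt (Ioc N M) S ω - ∑ n ∈ Ioc N M, pr A n| ≤ (N : ℝ) ^ (1 / ((i : ℝ) + 1)) * Real.sqrt ((M : ℝ) - N) := by
    rw [ae_all_iff]
    intro i
    exact cnt_sharp_one A hm hi hp _ (by positivity)
  filter_upwards [h] with ω hω e he
  obtain ⟨i, hi'⟩ := exists_nat_one_div_lt he
  filter_upwards [hω i, eventually_ge_atTop 1] with N hN hN1 M hM1 hM2
  have hN1' : (1 : ℝ) ≤ N := by exact_mod_cast hN1
  have h1 : (N : ℝ) ^ (2 * (1 / ((i : ℝ) + 1))) ≤ (N : ℝ) ^ (2 * e) :=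
    Real.rpow_le_rpow_of_exponent_le hN1' (by linarith)
  have h2 : (N : ℝ) ^ (1 / ((i : ℝ) + 1)) ≤ (N : ℝ) ^ e := Real.rpow_le_rpow_of_exponent_le hN1' hi'.le
  exact (hN M (by linarith) hM2).trans (mul_le_mul_of_nonneg_right h2 (Real.sqrt_nonneg _))

/-- the sum of `1 / log` between squares -/
theorem sum_log (r r' : ℕ) (hr : 3 ≤ r) (hr' : r < r') (G : ℝ) (hG1 : 1 ≤ G) (hG : (r' : ℝ) - r ≤ G) (hGr : G ≤ r) :
    |∑ n ∈ Ioc (r ^ 2) (r' ^ 2 - 1), 1 / Real.log (n : ℝ) - ((r' : ℝ) - r) * (r / Real.log r)| ≤ 4 * G ^ 2 := by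
  have hr0 : (0 : ℝ) < r := by exact_mod_cast (by omega : 0 < r)
  have hr0' : (0 : ℝ) < r' := by exact_mod_cast (by omega : 0 < r')
  have h1r : (r : ℝ) + 1 ≤ r' := by exact_mod_cast hr'
  obtain ⟨l, hl⟩ : ∃ l, l = Real.log (r : ℝ) := ⟨_, rfl⟩
  obtain ⟨l', hl'⟩ : ∃ l', l' = Real.log (r' : ℝ) := ⟨_, rfl⟩
  have hl1 : 1 ≤ l := by
    rw [hl, Real.le_log_iff_exp_le hr0]
    have h3 : (3 : ℝ) ≤ r := by exact_mod_cast hr
    have := Real.exp_one_lt_d9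
    linarith
  have hll : l' - l ≤ G / r := by
    rw [hl, hl', ← Real.log_div hr0'.ne' hr0.ne']
    have h2 := Real.log_le_sub_one_of_pos (show (0 : ℝ) < r' / r by positivity)
    have h3 : (r' : ℝ) / r - 1 = (r' - r) / r := by field_simp
    rw [h3] at h2
    exact h2.trans (div_le_div_of_nonneg_right hG hr0.le)
  have hll0 : l ≤ l' := by rw [hl, hl']; exact Real.log_le_log hr0 (by linarith)
  have hsq : r ^ 2 < r' ^ 2 := Nat.pow_lt_pow_left hr' (by norm_num)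
  obtain ⟨D, hD⟩ : ∃ D : ℝ, D = ((r' : ℝ) ^ 2 - 1) - r ^ 2 := ⟨_, rfl⟩
  have hcard : ((Ioc (r ^ 2) (r' ^ 2 - 1)).card : ℝ) = D := by
    rw [Nat.card_Ioc, Nat.cast_sub (by omega), Nat.cast_sub (by omega), hD]
    push_cast
    ring
  have hD0 : 0 ≤ D := by rw [← hcard]; exact Nat.cast_nonneg _
  have hup : ∑ n ∈ Ioc (r ^ 2) (r' ^ 2 - 1), 1 / Real.log (n : ℝ) ≤ D * (1 / (2 * l)) := by
    rw [← hcard, ← nsmul_eq_mul, ← sum_const]
    refine sum_le_sum fun n hn => ?_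
    rw [mem_Ioc] at hn
    apply one_div_le_one_div_of_le (by linarith)
    have h2 : 2 * l = Real.log ((r : ℝ) ^ 2) := by rw [Real.log_pow, hl]; norm_num
    rw [h2]
    apply Real.log_le_log (by positivity)
    exact_mod_cast hn.1.le
  have hlo : D * (1 / (2 * l')) ≤ ∑ n ∈ Ioc (r ^ 2) (r' ^ 2 - 1), 1 / Real.log (n : ℝ) := by
    rw [← hcard, ← nsmul_eq_mul, ← sum_const]
    refine sum_le_sum fun n hn => ?_
    rw [mem_Ioc] at hn
    have h2 : 2 * l' = Real.log ((r' : ℝ) ^ 2) := by rw [Real.log_pow, hl']; norm_num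
    have h4 : (r : ℝ) ^ 2 < n := by exact_mod_cast hn.1
    have h5 : 2 * l < Real.log (n : ℝ) := by
      have : 2 * l = Real.log ((r : ℝ) ^ 2) := by rw [Real.log_pow, hl]; norm_num
      rw [this]
      exact Real.log_lt_log (by positivity) h4
    apply one_div_le_one_div_of_le (by linarith)
    rw [h2]
    apply Real.log_le_log (by linarith [sq_nonneg (r : ℝ)])
    have : n ≤ r' ^ 2 := by omega
    exact_mod_cast this
  have hdiff : 1 / (2 * l) - 1 / (2 * l') ≤ G / r / 2 := by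
    have h2 : 1 / (2 * l) - 1 / (2 * l') = (l' - l) / (2 * (l * l')) := by
      have : l' ≠ 0 := by linarith
      have : l ≠ 0 := by linarith
      field_simp
    have hl0 : 0 < l := by linarith
    have hl0' : 0 < l' := by linarith
    rw [h2, div_le_div_iff₀ (by positivity) (by norm_num)]
    have h3 : 1 ≤ l * l' := by nlinarith
    have h4 : 0 ≤ G / r := by positivity
    nlinarith
  have hDG : D ≤ 3 * r * G := by
    rw [hD]
    nlinarith
  have h3 : D * (1 / (2 * l) - 1 / (2 * l')) ≤ 3 / 2 * G ^ 2 := by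
    have h5 : 0 ≤ 1 / (2 * l) - 1 / (2 * l') := by
      rw [sub_nonneg]
      exact one_div_le_one_div_of_le (by positivity) (by linarith)
    calc D * (1 / (2 * l) - 1 / (2 * l')) ≤ (3 * r * G) * (G / r / 2) := by
          apply mul_le_mul hDG hdiff h5 (by positivity)
      _ = 3 / 2 * G ^ 2 := by field_simp
  have h4 : |D * (1 / (2 * l)) - ((r' : ℝ) - r) * (r / l)| ≤ G ^ 2 := by
    have h5 : D * (1 / (2 * l)) - ((r' : ℝ) - r) * (r / l) = (((r' : ℝ) - r) ^ 2 - 1) / (2 * l) := by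
      rw [hD]
      field_simp
      ring
    have h6 : 1 ≤ (r' : ℝ) - r := by linarith
    rw [h5, abs_of_nonneg (by apply div_nonneg _ (by positivity); nlinarith), div_le_iff₀ (by positivity)]
    nlinarith
  have h5 := abs_le.1 h4
  rw [← hl, abs_le]
  constructor
  · nlinarith [h5.1]
  · nlinarith [h5.2]

/-- **the number of random primes between the squares, sharp** -/
theorem brocard_sharp (A : ℝ) (hA : 0 < A) (hm : ∀ n, MeasurableSet (S n)) (hi : iIndepSet S μ)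
    (hp : ∀ n, μ.real (S n) = pr A n) :
    ∀ᵐ ω ∂μ, ∀ ε : ℝ, 0 < ε → ∀ᶠ r : ℕ in atTop, ∀ r' : ℕ, r < r' → (∀ n ∈ Ioo r r', ω ∉ S n) →
      |cnt (Ioo (r ^ 2) (r' ^ 2)) S ω - ((r' : ℝ) - r) * (r / Real.log r)| ≤ (r : ℝ) ^ (1 / 2 + ε) := by
  filter_upwards [cnt_sharp A hm hi hp, gaps_upper A hA hm hi hp] with ω h1 h2
  -- small `ε` first
  have main : ∀ ε : ℝ, 0 < ε → ε ≤ 1 → ∀ᶠ r : ℕ in atTop, ∀ r' : ℕ, r < r' → (∀ n ∈ Ioo r r', ω ∉ S n) →
      |cnt (Ioo (r ^ 2) (r' ^ 2)) S ω - ((r' : ℝ) - r) * (r / Real.log r)| ≤ (r : ℝ) ^ (1 / 2 + ε) := by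
    intro ε hε hε1
    have hsq : Tendsto (fun r : ℕ => r ^ 2) atTop atTop := tendsto_pow_atTop (by norm_num)
    filter_upwards [hsq.eventually (h1 (ε / 8) (by positivity)), hsq.eventually (mean_sharp A hA),
      h2 3 (by norm_num), log_pow_small 3 8 (ε / 4) (by positivity) (by norm_num),
      rpow_big 8 (ε / 2) (by positivity), eventually_ge_atTop 3] with r a1 a2 a3 a4 a5 a6 r' hrr hno
    have hr0 : (0 : ℝ) < r := by exact_mod_cast (by omega : 0 < r)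
    have hr1 : (1 : ℝ) ≤ r := by exact_mod_cast (by omega : 1 ≤ r)
    have h1r : (r : ℝ) + 1 ≤ r' := by exact_mod_cast hrr
    have hl1 : 1 ≤ Real.log (r : ℝ) := by
      rw [Real.le_log_iff_exp_le hr0]
      have h3 : (3 : ℝ) ≤ r := by exact_mod_cast a6
      have := Real.exp_one_lt_d9
      linarith
    obtain ⟨G, hG⟩ : ∃ G, G = Real.log (r : ℝ) ^ 3 := ⟨_, rfl⟩
    rw [← hG] at a4
    have hG1 : 1 ≤ G := by rw [hG]; exact one_le_pow₀ hl1
    have e3 : Real.log (r : ℝ) ^ (3 : ℝ) = G := by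
      rw [hG, ← Real.rpow_natCast]
      norm_num
    rw [e3] at a3
    obtain ⟨n, hn1, hn2⟩ := a3
    rw [mem_Ioc] at hn1
    have hr'n : r' ≤ n := by
      by_contra hcon
      push Not at hcon
      exact hno n (mem_Ioo.2 ⟨hn1.1, hcon⟩) hn2
    have hgap : (r' : ℝ) - r ≤ G := by
      have k1 : r' ≤ r + ⌊G⌋₊ := by omega
      have k2 : (r' : ℝ) ≤ r + ⌊G⌋₊ := by exact_mod_cast k1
      have k3 := Nat.floor_le (show 0 ≤ G by linarith)
      linarith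
    -- powers of `r`
    obtain ⟨Q, hQ⟩ : ∃ Q, Q = (r : ℝ) ^ (1 / 2 + ε) := ⟨_, rfl⟩
    have hmono : ∀ a b : ℝ, a ≤ b → (r : ℝ) ^ a ≤ (r : ℝ) ^ b := fun a b hab => Real.rpow_le_rpow_of_exponent_le hr1 hab
    have hG8 : 8 * G ≤ (r : ℝ) ^ (ε / 4) := a4
    have hGr : G ≤ r := by
      have := hmono (ε / 4) 1 (by linarith)
      rw [Real.rpow_one] at this
      linarith
    have hhalf : 8 * (r : ℝ) ^ (1 / 2 : ℝ) ≤ Q := by
      have k1 : (r : ℝ) ^ (1 / 2 : ℝ) * (r : ℝ) ^ (ε / 2) ≤ Q := by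
        rw [← Real.rpow_add hr0, hQ]
        exact hmono _ _ (by linarith)
      have k2 : 0 < (r : ℝ) ^ (1 / 2 : ℝ) := by positivity
      nlinarith
    -- the interval
    have hN2 : (((r ^ 2 : ℕ) : ℕ) : ℝ) = (r : ℝ) ^ 2 := by push_cast; ring
    have hsq2 : r ^ 2 + 2 * r + 1 ≤ r' ^ 2 := by
      have : r + 1 ≤ r' := hrr
      nlinarith
    have hM : ((r' ^ 2 - 1 : ℕ) : ℝ) = (r' : ℝ) ^ 2 - 1 := by
      rw [Nat.cast_sub (by nlinarith)]
      push_cast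
      ring
    have hpow : (((r ^ 2 : ℕ) : ℕ) : ℝ) ^ (2 * (ε / 8)) = (r : ℝ) ^ (ε / 2) := by
      rw [hN2, ← Real.rpow_natCast, ← Real.rpow_mul hr0.le]
      congr 1
      push_cast
      ring
    have hpow1 : (((r ^ 2 : ℕ) : ℕ) : ℝ) ^ (ε / 8) = (r : ℝ) ^ (ε / 4) := by
      rw [hN2, ← Real.rpow_natCast, ← Real.rpow_mul hr0.le]
      congr 1
      push_cast
      ring
    have c1 : (((r ^ 2 : ℕ) : ℕ) : ℝ) + (((r ^ 2 : ℕ) : ℕ) : ℝ) ^ (2 * (ε / 8)) ≤ ((r' ^ 2 - 1 : ℕ) : ℝ) := by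
      rw [hpow, hN2, hM]
      have k1 := hmono (ε / 2) 1 (by linarith)
      rw [Real.rpow_one] at k1
      nlinarith
    have c2 : r' ^ 2 - 1 ≤ 2 * r ^ 2 := by
      have k1 : (r' : ℝ) ≤ r + G := by linarith
      have k2 : 8 * G ≤ r := by
        have := hmono (ε / 4) 1 (by linarith)
        rw [Real.rpow_one] at this
        linarith
      have k3 : ((r' ^ 2 - 1 : ℕ) : ℝ) ≤ ((2 * r ^ 2 : ℕ) : ℝ) := by
        rw [hM]
        push_cast
        have : (r' : ℝ) ≤ r + r / 8 := by linarith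
        nlinarith
      exact_mod_cast k3
    have b1 := a1 (r' ^ 2 - 1) c1 c2
    have b2 := a2 (r' ^ 2 - 1) (by omega)
    have b3 := sum_log r r' a6 hrr G hG1 hgap hGr
    rw [hpow1, hN2, hM] at b1
    have hset : Ioo (r ^ 2) (r' ^ 2) = Ioc (r ^ 2) (r' ^ 2 - 1) := by
      ext m
      rw [mem_Ioo, mem_Ioc]
      omega
    rw [hset]
    -- the errors
    have d1 : (r : ℝ) ^ (ε / 4) * Real.sqrt ((r' : ℝ) ^ 2 - 1 - (r : ℝ) ^ 2) ≤ Q / 4 := by
      have k1 : (r' : ℝ) ^ 2 - 1 - (r : ℝ) ^ 2 ≤ (2 * G) ^ 2 * r := by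
        have m1 : (r' : ℝ) ^ 2 ≤ (r + G) ^ 2 := pow_le_pow_left₀ (by linarith) (by linarith) 2
        have m2 : G * G ≤ r * G := mul_le_mul_of_nonneg_right hGr (by linarith)
        have m3 : r * (1 * G) ≤ r * (G * G) :=
          mul_le_mul_of_nonneg_left (mul_le_mul_of_nonneg_right hG1 (by linarith)) hr0.le
        nlinarith
      have k2 : Real.sqrt ((r' : ℝ) ^ 2 - 1 - (r : ℝ) ^ 2) ≤ 2 * G * (r : ℝ) ^ (1 / 2 : ℝ) := by
        rw [← Real.sqrt_eq_rpow]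
        calc Real.sqrt ((r' : ℝ) ^ 2 - 1 - (r : ℝ) ^ 2) ≤ Real.sqrt ((2 * G) ^ 2 * r) := Real.sqrt_le_sqrt k1
          _ = 2 * G * Real.sqrt r := by rw [Real.sqrt_mul (by positivity), Real.sqrt_sq (by linarith)]
      have k3 : 2 * G ≤ (r : ℝ) ^ (ε / 4) / 4 := by linarith
      have k4 : 0 < (r : ℝ) ^ (1 / 2 : ℝ) := by positivity
      have k5 : 0 < (r : ℝ) ^ (ε / 4) := by positivity
      calc (r : ℝ) ^ (ε / 4) * Real.sqrt ((r' : ℝ) ^ 2 - 1 - (r : ℝ) ^ 2) ≤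
            (r : ℝ) ^ (ε / 4) * ((r : ℝ) ^ (ε / 4) / 4 * (r : ℝ) ^ (1 / 2 : ℝ)) := by
            apply mul_le_mul_of_nonneg_left (k2.trans (mul_le_mul_of_nonneg_right k3 k4.le)) k5.le
        _ = (r : ℝ) ^ (ε / 4 + ε / 4 + 1 / 2) / 4 := by
            rw [Real.rpow_add hr0, Real.rpow_add hr0]
            ring
        _ ≤ Q / 4 := by
            rw [hQ]
            have := hmono (ε / 4 + ε / 4 + 1 / 2) (1 / 2 + ε) (by linarith)
            linarith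
    have d2 : (((r' ^ 2 - 1 : ℕ) : ℕ) : ℝ) ^ (1 / 4 : ℝ) ≤ Q / 4 := by
      have k1 : (((r' ^ 2 - 1 : ℕ) : ℕ) : ℝ) ≤ 2 ^ 2 * (r : ℝ) ^ 2 := by
        have : ((r' ^ 2 - 1 : ℕ) : ℝ) ≤ ((2 * r ^ 2 : ℕ) : ℝ) := by exact_mod_cast c2
        push_cast at this ⊢
        nlinarith
      calc (((r' ^ 2 - 1 : ℕ) : ℕ) : ℝ) ^ (1 / 4 : ℝ) ≤ (2 ^ 2 * (r : ℝ) ^ 2) ^ (1 / 4 : ℝ) :=
            Real.rpow_le_rpow (Nat.cast_nonneg _) k1 (by norm_num)
        _ = (2 * (r : ℝ)) ^ (1 / 2 : ℝ) := by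
            rw [← mul_pow, ← Real.rpow_natCast, ← Real.rpow_mul (by positivity)]
            congr 1
            norm_num
        _ ≤ 2 * (r : ℝ) ^ (1 / 2 : ℝ) := by
            rw [Real.mul_rpow (by norm_num) hr0.le]
            apply mul_le_mul_of_nonneg_right _ (by positivity)
            calc (2 : ℝ) ^ (1 / 2 : ℝ) ≤ (2 : ℝ) ^ (1 : ℝ) := Real.rpow_le_rpow_of_exponent_le (by norm_num) (by norm_num)
              _ = 2 := Real.rpow_one _
        _ ≤ Q / 4 := by linarith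
    have d3 : 4 * G ^ 2 ≤ Q / 4 := by
      have k1 : (8 * G) * (8 * G) ≤ (r : ℝ) ^ (ε / 4) * (r : ℝ) ^ (ε / 4) :=
        mul_le_mul hG8 hG8 (by positivity) (by positivity)
      rw [← Real.rpow_add hr0] at k1
      have k2 : (r : ℝ) ^ (ε / 4 + ε / 4) ≤ Q := by rw [hQ]; exact hmono _ _ (by linarith)
      nlinarith
    have b1' := abs_le.1 b1
    have b2' := abs_le.1 b2
    have b3' := abs_le.1 b3
    rw [← hQ, abs_le]
    constructor <;> linarith [b1'.1, b1'.2, b2'.1, b2'.2, b3'.1, b3'.2]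
  intro ε hε
  rcases le_or_gt ε 1 with h | h
  · exact main ε hε h
  · filter_upwards [main 1 one_pos le_rfl, eventually_ge_atTop 1] with r k1 k2 r' k3 k4
    refine (k1 r' k3 k4).trans (Real.rpow_le_rpow_of_exponent_le (by exact_mod_cast k2) (by linarith))

end Pool.Agent.T2H62.MN
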