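import Pool.Agent.T2H62.MD.U
import Pool.Agent.T2H62.MD.J

set_option autoImplicit false

/-! # Counting the windows with exactly `k` elements -/

namespace Pool.Agent.T2H62.MN

open Finset Filter Topology
open Pool.Agent.T2H62.MD (nu SS SS_tendsto)

/-- the pattern of `R` in the window `(x, x + y]` -/
def Wd (R : Set ℕ) [DecidablePred (· ∈ R)] (y x : ℕ) : Finset ℕ := (Icc 1 y).filter (fun h => x + h ∈ R)

/-- the `n ∈ (N, M]` with `n + T ⊆ R` -/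
def Tu (R : Set ℕ) [DecidablePred (· ∈ R)] (T : Finset ℕ) (N M : ℕ) : ℕ :=
  ((Ioc N M).filter (fun n => ∀ h ∈ T, n + h ∈ R)).card

/-- the `x ∈ (N, M]` with the pattern `T` -/
def Ex (R : Set ℕ) [DecidablePred (· ∈ R)] (y : ℕ) (T : Finset ℕ) (N M : ℕ) : ℕ :=
  ((Ioc N M).filter (fun x => Wd R y x = T)).card

/-- the `x ∈ (N, M]` with `k` elements of `R` in `(x, x + y]` -/
def Ek (R : Set ℕ) [DecidablePred (· ∈ R)] (y k N M : ℕ) : ℕ :=
  ((Ioc N M).filter (fun x => (Wd R y x).card = k)).card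

variable {R : Set ℕ} [DecidablePred (· ∈ R)]

theorem Ex_le (y : ℕ) (T : Finset ℕ) (N M : ℕ) : Ex R y T N M ≤ Tu R T N M := by
  unfold Ex Tu
  apply card_le_card
  intro x hx
  rw [mem_filter] at hx ⊢
  refine ⟨hx.1, fun h hh => ?_⟩
  rw [← hx.2] at hh
  exact (mem_filter.1 hh).2

theorem Tu_le (y : ℕ) (T : Finset ℕ) (hT : T ⊆ Icc 1 y) (N M : ℕ) :
    Tu R T N M ≤ Ex R y T N M + ∑ j ∈ Icc 1 y \ T, Tu R (insert j T) N M := by
  classical
  unfold Ex Tu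
  refine le_trans ?_ (add_le_add_right (card_biUnion_le (s := Icc 1 y \ T)
    (t := fun j => (Ioc N M).filter (fun n => ∀ h ∈ insert j T, n + h ∈ R))) _)
  refine le_trans (card_le_card ?_) (card_union_le _ _)
  intro x hx
  rw [mem_filter] at hx
  rw [mem_union]
  by_cases h1 : Wd R y x = T
  · exact Or.inl (mem_filter.2 ⟨hx.1, h1⟩)
  · right
    have h2 : T ⊆ Wd R y x := fun h hh => mem_filter.2 ⟨hT hh, hx.2 h hh⟩
    obtain ⟨j, hj1, hj2⟩ := exists_of_ssubset (Finset.ssubset_iff_subset_ne.2 ⟨h2, fun h => h1 h.symm⟩)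
    rw [mem_biUnion]
    refine ⟨j, Finset.mem_sdiff.2 ⟨(mem_filter.1 hj1).1, hj2⟩, mem_filter.2 ⟨hx.1, fun h hh => ?_⟩⟩
    rw [mem_insert] at hh
    rcases hh with rfl | hh
    · exact (mem_filter.1 hj1).2
    · exact hx.2 h hh

theorem Ek_eq (y k N M : ℕ) : Ek R y k N M = ∑ T ∈ (Icc 1 y).powersetCard k, Ex R y T N M := by
  classical
  unfold Ek Ex
  rw [card_eq_sum_card_fiberwise (f := fun x => Wd R y x) (t := (Icc 1 y).powersetCard k)]
  · refine sum_congr rfl fun T hT => ?_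
    congr 1
    ext x
    rw [mem_filter, mem_filter, mem_filter]
    constructor
    · rintro ⟨⟨h1, -⟩, h2⟩
      exact ⟨h1, h2⟩
    · rintro ⟨h1, h2⟩
      exact ⟨⟨h1, by rw [h2]; exact (mem_powersetCard.1 hT).2⟩, h2⟩
  · intro x hx
    have hx' := (mem_filter.1 (mem_coe.1 hx)).2
    exact mem_coe.2 (mem_powersetCard.2 ⟨filter_subset _ _, hx'⟩)

/-- the patterns of the late windows are admissible -/
def Late (R : Set ℕ) [DecidablePred (· ∈ R)] : Prop :=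
  ∀ y : ℕ, ∀ᶠ x : ℕ in atTop, ∀ p : ℕ, p.Prime → nu (Wd R y x) p < p

/-- the asymptotic formula of Hardy and Littlewood in short intervals -/
def HL (R : Set ℕ) [DecidablePred (· ∈ R)] : Prop :=
  ∀ T : Finset ℕ, 0 ∉ T → (∀ p : ℕ, p.Prime → nu T p < p) → ∀ s : ℝ, Tendsto (SS T) atTop (𝓝 s) →
    ∀ ε δ : ℝ, 0 < ε → 0 < δ → ∀ᶠ N : ℕ in atTop, ∀ M : ℕ, (N : ℝ) + (N : ℝ) ^ ε ≤ M → M ≤ 2 * N →
      |(Tu R T N M : ℝ) - s * (((M : ℝ) - N) / Real.log N ^ T.card)| ≤ δ * (((M : ℝ) - N) / Real.log N ^ T.card)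

theorem nu_mono {T T' : Finset ℕ} (h : T ⊆ T') (p : ℕ) : nu T p ≤ nu T' p := card_le_card (image_subset_image h)

/-- sets which are not admissible have no late translates in `R` -/
theorem Tu_zero (hl : Late R) (y : ℕ) (T : Finset ℕ) (hT : T ⊆ Icc 1 y) (hna : ¬ ∀ p : ℕ, p.Prime → nu T p < p) :
    ∀ᶠ N : ℕ in atTop, ∀ M : ℕ, Tu R T N M = 0 := by
  obtain ⟨x₀, hx₀⟩ := eventually_atTop.1 (hl y)
  filter_upwards [eventually_ge_atTop x₀] with N hN M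
  unfold Tu
  rw [card_eq_zero, filter_eq_empty_iff]
  intro x hx h1
  rw [mem_Ioc] at hx
  apply hna
  intro p hp
  refine lt_of_le_of_lt (nu_mono (fun h hh => mem_filter.2 ⟨hT hh, h1 h hh⟩) p) (hx₀ x (by omega) p hp)

/-- an upper bound for all tuples of `k` elements: `o((M - N) / log ^ j)` for `j < k` -/
theorem Tu_small (hl : Late R) (hh : HL R) (y : ℕ) (T : Finset ℕ) (hT : T ⊆ Icc 1 y) (j : ℕ) (hj : j < T.card)
    (ε δ : ℝ) (hε : 0 < ε) (hδ : 0 < δ) : ∀ᶠ N : ℕ in atTop, ∀ M : ℕ, (N : ℝ) + (N : ℝ) ^ ε ≤ M → M ≤ 2 * N →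
      (Tu R T N M : ℝ) ≤ δ * (((M : ℝ) - N) / Real.log N ^ j) := by
  have hTn : Tendsto (fun n : ℕ => (n : ℝ)) atTop atTop := tendsto_natCast_atTop_atTop
  have hL : Tendsto (fun n : ℕ => Real.log (n : ℝ)) atTop atTop := Real.tendsto_log_atTop.comp hTn
  by_cases hadm : ∀ p : ℕ, p.Prime → nu T p < p
  · obtain ⟨s, hs0, hs⟩ := SS_tendsto T y hT hadm
    have h0 : 0 ∉ T := fun h => by have := mem_Icc.1 (hT h); omega
    filter_upwards [hh T h0 hadm s hs ε 1 hε one_pos, hL.eventually_ge_atTop ((s + 1) / δ), hL.eventually_ge_atTop 1]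
      with N h1 h2 h3 M hM1 hM2
    have h4 := (abs_le.1 (h1 M hM1 hM2)).2
    have hN0 : (0 : ℝ) ≤ (N : ℝ) ^ ε := Real.rpow_nonneg (Nat.cast_nonneg _) _
    have hB : 0 ≤ (M : ℝ) - N := by linarith
    have hl0 : 0 < Real.log N := by linarith
    have h5 : ((M : ℝ) - N) / Real.log N ^ T.card ≤ ((M : ℝ) - N) / (Real.log N ^ j * Real.log N) := by
      apply div_le_div_of_nonneg_left hB (by positivity)
      rw [← pow_succ]
      exact pow_le_pow_right₀ h3 hj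
    have h6 : (s + 1) ≤ δ * Real.log N := by
      rw [div_le_iff₀ hδ] at h2
      linarith
    calc (Tu R T N M : ℝ) ≤ (s + 1) * (((M : ℝ) - N) / Real.log N ^ T.card) := by linarith
      _ ≤ (s + 1) * (((M : ℝ) - N) / (Real.log N ^ j * Real.log N)) := mul_le_mul_of_nonneg_left h5 (by linarith)
      _ ≤ (δ * Real.log N) * (((M : ℝ) - N) / (Real.log N ^ j * Real.log N)) :=
          mul_le_mul_of_nonneg_right h6 (by positivity)
      _ = δ * (((M : ℝ) - N) / Real.log N ^ j) := by field_simp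
  · filter_upwards [Tu_zero hl y T hT hadm, hL.eventually_ge_atTop 1] with N h1 h3 M hM1 hM2
    rw [h1 M]
    have hN0 : (0 : ℝ) ≤ (N : ℝ) ^ ε := Real.rpow_nonneg (Nat.cast_nonneg _) _
    have hB : 0 ≤ (M : ℝ) - N := by linarith
    have hl0 : 0 < Real.log N := by linarith
    push_cast
    positivity

/-- exact patterns -/
theorem Ex_asymp (hl : Late R) (hh : HL R) (y : ℕ) (T : Finset ℕ) (hT : T ⊆ Icc 1 y)
    (hadm : ∀ p : ℕ, p.Prime → nu T p < p) (s : ℝ) (hs : Tendsto (SS T) atTop (𝓝 s))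
    (ε δ : ℝ) (hε : 0 < ε) (hδ : 0 < δ) : ∀ᶠ N : ℕ in atTop, ∀ M : ℕ, (N : ℝ) + (N : ℝ) ^ ε ≤ M → M ≤ 2 * N →
      |(Ex R y T N M : ℝ) - s * (((M : ℝ) - N) / Real.log N ^ T.card)| ≤ δ * (((M : ℝ) - N) / Real.log N ^ T.card) := by
  have h0 : 0 ∉ T := fun h => by have := mem_Icc.1 (hT h); omega
  have h1 : ∀ᶠ N : ℕ in atTop, ∀ j ∈ Icc 1 y \ T, ∀ M : ℕ, (N : ℝ) + (N : ℝ) ^ ε ≤ M → M ≤ 2 * N →
      (Tu R (insert j T) N M : ℝ) ≤ δ / 2 / (y + 1) * (((M : ℝ) - N) / Real.log N ^ T.card) := by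
    rw [eventually_all_finset]
    intro j hj
    rw [Finset.mem_sdiff] at hj
    exact Tu_small hl hh y (insert j T) (insert_subset hj.1 hT) T.card (by rw [card_insert_of_notMem hj.2]; omega)
      ε _ hε (by positivity)
  filter_upwards [h1, hh T h0 hadm s hs ε (δ / 2) hε (by positivity), eventually_ge_atTop 2] with N a1 a2 hN2 M hM1 hM2
  have hN0 : (0 : ℝ) ≤ (N : ℝ) ^ ε := Real.rpow_nonneg (Nat.cast_nonneg _) _
  have hB : 0 ≤ (M : ℝ) - N := by linarith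
  have hl0 : 0 < Real.log N := Real.log_pos (by exact_mod_cast (by omega : 1 < N))
  obtain ⟨Q, hQ⟩ : ∃ Q, Q = ((M : ℝ) - N) / Real.log N ^ T.card := ⟨_, rfl⟩
  have hQ0 : 0 ≤ Q := by rw [hQ]; positivity
  rw [← hQ]
  have a3 := abs_le.1 (a2 M hM1 hM2)
  rw [← hQ] at a3
  have a4 : (Ex R y T N M : ℝ) ≤ Tu R T N M := by exact_mod_cast Ex_le y T N M
  have a5 : (Tu R T N M : ℝ) ≤ Ex R y T N M + ∑ j ∈ Icc 1 y \ T, (Tu R (insert j T) N M : ℝ) := by
    exact_mod_cast Tu_le y T hT N M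
  have a6 : ∑ j ∈ Icc 1 y \ T, (Tu R (insert j T) N M : ℝ) ≤ δ / 2 * Q := by
    calc ∑ j ∈ Icc 1 y \ T, (Tu R (insert j T) N M : ℝ) ≤ ∑ _j ∈ Icc 1 y \ T, δ / 2 / (y + 1) * Q :=
          sum_le_sum fun j hj => by have := a1 j hj M hM1 hM2; rwa [← hQ] at this
      _ = ((Icc 1 y \ T).card : ℝ) * (δ / 2 / (y + 1) * Q) := by rw [sum_const, nsmul_eq_mul]
      _ ≤ ((y : ℝ) + 1) * (δ / 2 / (y + 1) * Q) := by
          apply mul_le_mul_of_nonneg_right _ (by positivity)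
          have : (Icc 1 y \ T).card ≤ y := (card_le_card sdiff_subset).trans (by simp)
          have : ((Icc 1 y \ T).card : ℝ) ≤ y := by exact_mod_cast this
          linarith
      _ = δ / 2 * Q := by field_simp
  rw [abs_le]
  constructor <;> nlinarith [a3.1, a3.2]

open scoped Classical in
/-- the main theorem on the numbers of windows with exactly `k` elements -/
theorem Ek_asymp (hl : Late R) (hh : HL R) (y k : ℕ) (ε δ : ℝ) (hε : 0 < ε) (hδ : 0 < δ) (c : ℝ)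
    (hc : Tendsto (fun z => ∑ T ∈ ((Icc 1 y).powersetCard k).filter (fun T => ∀ p : ℕ, p.Prime → nu T p < p), SS T z)
      atTop (𝓝 c)) :
    ∀ᶠ N : ℕ in atTop, ∀ M : ℕ, (N : ℝ) + (N : ℝ) ^ ε ≤ M → M ≤ 2 * N →
      |(Ek R y k N M : ℝ) - c * (((M : ℝ) - N) / Real.log N ^ k)| ≤ δ * (((M : ℝ) - N) / Real.log N ^ k) := by
  obtain ⟨P, hP⟩ : ∃ P, P = (Icc 1 y).powersetCard k := ⟨_, rfl⟩
  obtain ⟨PA, hPA⟩ : ∃ PA, PA = P.filter (fun T => ∀ p : ℕ, p.Prime → nu T p < p) := ⟨_, rfl⟩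
  rw [← hP, ← hPA] at hc
  have hex : ∀ T : Finset ℕ, ∃ s : ℝ, T ∈ PA → Tendsto (SS T) atTop (𝓝 s) := by
    intro T
    by_cases hT : T ∈ PA
    · rw [hPA, mem_filter, hP, mem_powersetCard] at hT
      obtain ⟨s, -, hs⟩ := SS_tendsto T y hT.1.1 hT.2
      exact ⟨s, fun _ => hs⟩
    · exact ⟨0, fun h => absurd h hT⟩
  choose s hs using hex
  have hcs : c = ∑ T ∈ PA, s T := tendsto_nhds_unique hc (tendsto_finsetSum _ fun T hT => hs T hT)
  have h1 : ∀ᶠ N : ℕ in atTop, ∀ T ∈ PA, ∀ M : ℕ, (N : ℝ) + (N : ℝ) ^ ε ≤ M → M ≤ 2 * N →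
      |(Ex R y T N M : ℝ) - s T * (((M : ℝ) - N) / Real.log N ^ k)| ≤
        δ / (PA.card + 1) * (((M : ℝ) - N) / Real.log N ^ k) := by
    rw [eventually_all_finset]
    intro T hT
    have hT' := hT
    rw [hPA, mem_filter, hP, mem_powersetCard] at hT'
    have := Ex_asymp hl hh y T hT'.1.1 hT'.2 (s T) (hs T hT) ε (δ / (PA.card + 1)) hε (by positivity)
    rw [hT'.1.2] at this
    exact this
  have h2 : ∀ᶠ N : ℕ in atTop, ∀ T ∈ P \ PA, ∀ M : ℕ, Ex R y T N M = 0 := by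
    rw [eventually_all_finset]
    intro T hT
    rw [Finset.mem_sdiff, hPA, mem_filter, hP, mem_powersetCard] at hT
    have h3 : ¬ ∀ p : ℕ, p.Prime → nu T p < p := fun h => hT.2 ⟨hT.1, h⟩
    filter_upwards [Tu_zero hl y T hT.1.1 h3] with N hN M
    exact Nat.le_zero.1 ((Ex_le y T N M).trans (hN M).le)
  filter_upwards [h1, h2, eventually_ge_atTop 2] with N a1 a2 hN2 M hM1 hM2
  have hN0 : (0 : ℝ) ≤ (N : ℝ) ^ ε := Real.rpow_nonneg (Nat.cast_nonneg _) _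
  have hB : 0 ≤ (M : ℝ) - N := by linarith
  have hl0 : 0 < Real.log N := Real.log_pos (by exact_mod_cast (by omega : 1 < N))
  have h3 : (Ek R y k N M : ℝ) = ∑ T ∈ PA, (Ex R y T N M : ℝ) := by
    rw [Ek_eq, ← hP]
    push_cast
    rw [← sum_sdiff (show PA ⊆ P by rw [hPA]; exact filter_subset _ _)]
    rw [sum_eq_zero (s := P \ PA), zero_add]
    intro T hT
    rw [a2 T hT M]
    simp
  rw [h3, hcs, sum_mul, ← sum_sub_distrib]
  refine (abs_sum_le_sum_abs _ _).trans ?_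
  calc ∑ T ∈ PA, |(Ex R y T N M : ℝ) - s T * (((M : ℝ) - N) / Real.log N ^ k)|
      ≤ ∑ _T ∈ PA, δ / (PA.card + 1) * (((M : ℝ) - N) / Real.log N ^ k) := sum_le_sum fun T hT => a1 T hT M hM1 hM2
    _ = (PA.card : ℝ) * (δ / (PA.card + 1) * (((M : ℝ) - N) / Real.log N ^ k)) := by rw [sum_const, nsmul_eq_mul]
    _ ≤ ((PA.card : ℝ) + 1) * (δ / (PA.card + 1) * (((M : ℝ) - N) / Real.log N ^ k)) := by
        apply mul_le_mul_of_nonneg_right _ (by positivity)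
        linarith
    _ = δ * (((M : ℝ) - N) / Real.log N ^ k) := by field_simp

/-- the `x ∈ (N, M]` with at least `k` elements of `R` in `(x, x + y]` -/
def Em (R : Set ℕ) [DecidablePred (· ∈ R)] (y k N M : ℕ) : ℕ :=
  ((Ioc N M).filter (fun x => k ≤ (Wd R y x).card)).card

theorem Wd_card (y x : ℕ) : (Wd R y x).card ≤ y := (card_le_card (filter_subset _ _)).trans (by simp)

theorem Em_eq (y k N M : ℕ) : Em R y k N M ≤ Ek R y k N M +
    ∑ T ∈ ((Icc 1 y).powerset).filter (fun T => k < T.card), Tu R T N M := by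
  classical
  unfold Em Ek Tu
  refine le_trans ?_ (add_le_add_right (card_biUnion_le (s := ((Icc 1 y).powerset).filter (fun T => k < T.card))
    (t := fun T => (Ioc N M).filter (fun n => ∀ h ∈ T, n + h ∈ R))) _)
  refine le_trans (card_le_card ?_) (card_union_le _ _)
  intro x hx
  rw [mem_filter] at hx
  rw [mem_union]
  rcases hx.2.eq_or_lt with h1 | h1
  · exact Or.inl (mem_filter.2 ⟨hx.1, h1.symm⟩)
  · right
    rw [mem_biUnion]
    exact ⟨Wd R y x, mem_filter.2 ⟨mem_powerset.2 (filter_subset _ _), h1⟩,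
      mem_filter.2 ⟨hx.1, fun h hh => (mem_filter.1 hh).2⟩⟩

theorem Ek_le_Em (y k N M : ℕ) : Ek R y k N M ≤ Em R y k N M := by
  unfold Ek Em
  apply card_le_card
  intro x hx
  rw [mem_filter] at hx ⊢
  exact ⟨hx.1, hx.2.ge⟩

open scoped Classical in
/-- the windows with at least `k` elements -/
theorem Em_asymp (hl : Late R) (hh : HL R) (y k : ℕ) (ε δ : ℝ) (hε : 0 < ε) (hδ : 0 < δ) (c : ℝ)
    (hc : Tendsto (fun z => ∑ T ∈ ((Icc 1 y).powersetCard k).filter (fun T => ∀ p : ℕ, p.Prime → nu T p < p), SS T z)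
      atTop (𝓝 c)) :
    ∀ᶠ N : ℕ in atTop, ∀ M : ℕ, (N : ℝ) + (N : ℝ) ^ ε ≤ M → M ≤ 2 * N →
      |(Em R y k N M : ℝ) - c * (((M : ℝ) - N) / Real.log N ^ k)| ≤ δ * (((M : ℝ) - N) / Real.log N ^ k) := by
  obtain ⟨P, hP⟩ : ∃ P, P = ((Icc 1 y).powerset).filter (fun T => k < T.card) := ⟨_, rfl⟩
  have h1 : ∀ᶠ N : ℕ in atTop, ∀ T ∈ P, ∀ M : ℕ, (N : ℝ) + (N : ℝ) ^ ε ≤ M → M ≤ 2 * N →
      (Tu R T N M : ℝ) ≤ δ / 2 / (P.card + 1) * (((M : ℝ) - N) / Real.log N ^ k) := by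
    rw [eventually_all_finset]
    intro T hT
    rw [hP, mem_filter, mem_powerset] at hT
    exact Tu_small hl hh y T hT.1 k hT.2 ε _ hε (by positivity)
  filter_upwards [h1, Ek_asymp hl hh y k ε (δ / 2) hε (by positivity) c hc, eventually_ge_atTop 2] with N a1 a2 hN2 M hM1 hM2
  have hN0 : (0 : ℝ) ≤ (N : ℝ) ^ ε := Real.rpow_nonneg (Nat.cast_nonneg _) _
  have hB : 0 ≤ (M : ℝ) - N := by linarith
  have hl0 : 0 < Real.log N := Real.log_pos (by exact_mod_cast (by omega : 1 < N))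
  have a3 := abs_le.1 (a2 M hM1 hM2)
  have a4 : (Ek R y k N M : ℝ) ≤ Em R y k N M := by exact_mod_cast Ek_le_Em y k N M
  have a5 : (Em R y k N M : ℝ) ≤ Ek R y k N M + ∑ T ∈ P, (Tu R T N M : ℝ) := by
    rw [hP]
    exact_mod_cast Em_eq y k N M
  have a6 : ∑ T ∈ P, (Tu R T N M : ℝ) ≤ δ / 2 * (((M : ℝ) - N) / Real.log N ^ k) := by
    calc ∑ T ∈ P, (Tu R T N M : ℝ) ≤ ∑ _T ∈ P, δ / 2 / (P.card + 1) * (((M : ℝ) - N) / Real.log N ^ k) :=
          sum_le_sum fun T hT => a1 T hT M hM1 hM2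
      _ = (P.card : ℝ) * (δ / 2 / (P.card + 1) * (((M : ℝ) - N) / Real.log N ^ k)) := by rw [sum_const, nsmul_eq_mul]
      _ ≤ ((P.card : ℝ) + 1) * (δ / 2 / (P.card + 1) * (((M : ℝ) - N) / Real.log N ^ k)) := by
          apply mul_le_mul_of_nonneg_right _ (by positivity)
          linarith
      _ = δ / 2 * (((M : ℝ) - N) / Real.log N ^ k) := by field_simp
  obtain ⟨Q, hQ⟩ : ∃ Q, Q = ((M : ℝ) - N) / Real.log N ^ k := ⟨_, rfl⟩
  have hQ0 : 0 ≤ Q := by rw [hQ]; positivity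
  rw [← hQ] at a3 a6 ⊢
  rw [abs_le]
  constructor <;> nlinarith [a3.1, a3.2]

/-- the largest size of an admissible subset of `[1, y]` -/
theorem exists_adm (y k K : ℕ) (T : Finset ℕ) (hT : T ⊆ Icc 1 y) (hadm : ∀ p : ℕ, p.Prime → nu T p < p)
    (hK : T.card = K) (hk : k ≤ K) : ∃ T' ⊆ Icc 1 y, T'.card = k ∧ ∀ p : ℕ, p.Prime → nu T' p < p := by
  obtain ⟨T', h1, h2⟩ := exists_subset_card_eq (s := T) (n := k) (by omega)
  exact ⟨T', h1.trans hT, h2, fun p hp => lt_of_le_of_lt (nu_mono h1 p) (hadm p hp)⟩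

open scoped Classical in
theorem sum_pos (y k : ℕ) (T : Finset ℕ) (hT : T ⊆ Icc 1 y) (hk : T.card = k) (hadm : ∀ p : ℕ, p.Prime → nu T p < p) :
    ∃ c : ℝ, 0 < c ∧
    Tendsto (fun z => ∑ T ∈ ((Icc 1 y).powersetCard k).filter (fun T => ∀ p : ℕ, p.Prime → nu T p < p), SS T z)
      atTop (𝓝 c) := by
  obtain ⟨PA, hPA⟩ : ∃ PA, PA = ((Icc 1 y).powersetCard k).filter (fun T => ∀ p : ℕ, p.Prime → nu T p < p) := ⟨_, rfl⟩
  rw [← hPA]
  have hex : ∀ T : Finset ℕ, ∃ s : ℝ, T ∈ PA → 0 < s ∧ Tendsto (SS T) atTop (𝓝 s) := by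
    intro T
    by_cases hT : T ∈ PA
    · rw [hPA, mem_filter, mem_powersetCard] at hT
      obtain ⟨s, hs0, hs⟩ := SS_tendsto T y hT.1.1 hT.2
      exact ⟨s, fun _ => ⟨hs0, hs⟩⟩
    · exact ⟨0, fun h => absurd h hT⟩
  choose s hs using hex
  refine ⟨∑ T ∈ PA, s T, ?_, tendsto_finsetSum _ fun T hT => (hs T hT).2⟩
  have hT2 : T ∈ PA := by
    rw [hPA, mem_filter, mem_powersetCard]
    exact ⟨⟨hT, hk⟩, hadm⟩
  exact Finset.sum_pos (fun T hT => (hs T hT).1) ⟨T, hT2⟩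

end Pool.Agent.T2H62.MN
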