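import Pool.Agent.T2H62.MN.B
import Pool.Agent.T2H62.MD.L

set_option autoImplicit false

/-! # The expected number of random primes, sharp -/

namespace Pool.Agent.T2H62.MN

open Finset Filter Topology MeasureTheory ProbabilityTheory
open Pool.Agent.T2H53.GW
open Pool.Agent.H305R2 (VV VV_tendsto)
open Pool.Agent.T2H62.MD

/-- the probability on a block, for late `n` -/
theorem pr_block {A : ℝ} {n j : ℕ} (hn : 0 ≤ A * Real.log n) (hj : ⌊A * Real.log n⌋₊ = j) (h1 : pr A n < 1)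
    [Decidable (∀ p ∈ PJ j, ¬ p ∣ n)] :
    pr A n = (if ∀ p ∈ PJ j, ¬ p ∣ n then VV j else 0) * (1 / Real.log n) := by
  classical
  have hiff : (∀ p : ℕ, p.Prime → (p : ℝ) ≤ A * Real.log n → ¬ p ∣ n) ↔ ∀ p ∈ PJ j, ¬ p ∣ n := by
    constructor
    · intro h p hp
      unfold PJ at hp
      rw [mem_filter, mem_Icc] at hp
      refine h p hp.2 ?_
      rw [← Nat.le_floor_iff hn, hj]
      exact hp.1.2
    · intro h p hp hpA
      apply h
      unfold PJ
      rw [mem_filter, mem_Icc]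
      rw [← Nat.le_floor_iff hn, hj] at hpA
      exact ⟨⟨hp.one_lt.le, hpA⟩, hp⟩
  unfold pr at h1 ⊢
  by_cases h : ∀ p ∈ PJ j, ¬ p ∣ n
  · rw [if_pos (hiff.2 h)] at h1 ⊢
    rw [if_pos h, mul_one_div]
    rcases min_lt_iff.1 h1 with h2 | h2
    · exact absurd h2 (lt_irrefl _)
    · rw [min_eq_right h2.le, hj]
  · rw [if_neg (fun h' => h (hiff.1 h')), if_neg h, zero_mul]

/-- one block, lower bound -/
theorem block_low (A : ℝ) (hA : 0 ≤ A) (a b j : ℕ) (ha : 2 ≤ a) (hab : a < b)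
    (hj : ∀ n ∈ Ioc a b, ⌊A * Real.log n⌋₊ = j) (h1 : ∀ n ∈ Ioc a b, pr A n < 1) :
    ∑ n ∈ Ioc a b, 1 / Real.log n ≤ ∑ n ∈ Ioc a b, pr A n + VV j * 2 ^ (PJ j).card := by
  classical
  obtain ⟨g, hg⟩ : ∃ g : ℕ → ℝ, g = fun n => (if ∀ p ∈ PJ j, ¬ p ∣ n then VV j else 0) := ⟨_, rfl⟩
  have hVV : 0 ≤ VV j := by linarith [one_le_VV j]
  have hlog : ∀ n : ℕ, a < n → 1 ≤ Real.log n := by
    intro n hn
    have h3 : (3 : ℝ) ≤ n := by exact_mod_cast (by omega : 3 ≤ n)
    rw [Real.le_log_iff_exp_le (by linarith)]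
    have := Real.exp_one_lt_d9
    linarith
  have h1 : ∑ n ∈ Ioc a b, pr A n = ∑ n ∈ Ioc a b, g n * (1 / Real.log n) := by
    refine sum_congr rfl fun n hn => ?_
    rw [hg]
    exact pr_block (mul_nonneg hA (by linarith [hlog n (mem_Ioc.1 hn).1])) (hj n hn) (h1 n hn)
  have h2 : ∑ n ∈ Ioc a b, (1 - g n) * (1 / Real.log n) ≤ (VV j * 2 ^ (PJ j).card) * (1 / Real.log ((a + 1 : ℕ) : ℝ)) := by
    refine abel (fun n => 1 - g n) (fun n => 1 / Real.log n) _ a b hab ?_ ?_ ?_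
    · intro m hm _
      rw [sum_sub_distrib, sum_const, Nat.card_Ioc, nsmul_eq_mul, mul_one]
      have h3 : ∑ n ∈ Ioc a m, g n = VV j * NP (PJ j) a m := by
        rw [hg]
        unfold NP
        rw [← sum_filter, sum_const, nsmul_eq_mul, mul_comm]
      rw [h3]
      have h4 := leg (PJ j) (fun p hp => PJ_prime hp) a m
      rw [max_eq_right hm.le] at h4
      have h5 := (abs_le.1 h4).1
      have h6 : (((m : ℕ) : ℝ) - a) * ∏ p ∈ PJ j, (1 - (p : ℝ)⁻¹) ≤ (NP (PJ j) a m : ℝ) + 2 ^ (PJ j).card := by linarith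
      have h7 := mul_le_mul_of_nonneg_left h6 hVV
      have h8 : VV j * ((((m : ℕ) : ℝ) - a) * ∏ p ∈ PJ j, (1 - (p : ℝ)⁻¹)) =
          (((m : ℕ) : ℝ) - a) * (VV j * ∏ p ∈ PJ j, (1 - (p : ℝ)⁻¹)) := by ring
      rw [h8, VV_mul, mul_one] at h7
      rw [Nat.cast_sub hm.le]
      nlinarith
    · intro n hn
      have h3 := hlog n hn
      apply one_div_le_one_div_of_le (by linarith)
      apply Real.log_le_log
      · have : 0 < n := by omega
        exact_mod_cast this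
      · push_cast; linarith
    · intro n hn
      have := hlog n hn
      positivity
  have h3 : (VV j * 2 ^ (PJ j).card) * (1 / Real.log ((a + 1 : ℕ) : ℝ)) ≤ VV j * 2 ^ (PJ j).card := by
    apply mul_le_of_le_one_right (by positivity)
    have := hlog (a + 1) (by omega)
    rw [div_le_one (by linarith)]
    exact this
  have h4 : ∑ n ∈ Ioc a b, 1 / Real.log (n : ℝ) = ∑ n ∈ Ioc a b, (1 - g n) * (1 / Real.log n) +
      ∑ n ∈ Ioc a b, g n * (1 / Real.log n) := by
    rw [← sum_add_distrib]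
    exact sum_congr rfl fun n _ => by ring
  linarith

/-- all blocks, lower bound -/
theorem blocks_low (A : ℝ) (hA : 0 ≤ A) (a x : ℕ) (ha : 2 ≤ a) (h1 : ∀ n ∈ Ioc a x, pr A n < 1) :
    ∑ n ∈ Ioc a x, 1 / Real.log n ≤ ∑ n ∈ Ioc a x, pr A n +
      ((⌊A * Real.log x⌋₊ : ℝ) + 1) * (VV ⌊A * Real.log x⌋₊ * 2 ^ (PJ ⌊A * Real.log x⌋₊).card) := by
  classical
  obtain ⟨g, hg⟩ : ∃ g : ℕ → ℕ, g = fun n : ℕ => ⌊A * Real.log n⌋₊ := ⟨_, rfl⟩
  have hgm : ∀ m n : ℕ, a < m → m ≤ n → g m ≤ g n := by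
    intro m n hm hmn
    rw [hg]
    apply Nat.floor_le_floor
    apply mul_le_mul_of_nonneg_left _ hA
    apply Real.log_le_log
    · have : 0 < m := by omega
      exact_mod_cast this
    · exact_mod_cast hmn
  obtain ⟨J, hJ⟩ : ∃ J, J = ⌊A * Real.log x⌋₊ := ⟨_, rfl⟩
  have hmaps : ∀ n ∈ Ioc a x, g n ∈ range (J + 1) := by
    intro n hn
    rw [mem_Ioc] at hn
    rw [mem_range]
    have h1 := hgm n x hn.1 hn.2
    have h2 : g x = J := by rw [hg, hJ]
    omega
  rw [← sum_fiberwise_of_maps_to hmaps, ← sum_fiberwise_of_maps_to hmaps (f := fun n : ℕ => pr A n), ← hJ]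
  have hblock : ∀ j ∈ range (J + 1), ∑ n ∈ (Ioc a x).filter (fun n => g n = j), 1 / Real.log (n : ℝ) ≤
      ∑ n ∈ (Ioc a x).filter (fun n => g n = j), pr A n + VV J * 2 ^ (PJ J).card := by
    intro j hj
    rw [mem_range] at hj
    have hVV : 0 ≤ VV J := by linarith [one_le_VV J]
    by_cases hne : ((Ioc a x).filter (fun n => g n = j)).Nonempty
    · obtain ⟨u, v, hu, huv, he⟩ := fibre g a x j hgm hne
      have h1 := block_low A hA u v j (by omega) huv (by
        intro n hn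
        rw [← he, mem_filter] at hn
        have := hn.2
        rw [hg] at this
        exact this) (by
        intro n hn
        rw [← he, mem_filter] at hn
        exact h1 n hn.1)
      rw [he]
      refine h1.trans ((add_le_add_iff_left _).2 ?_)
      apply mul_le_mul (VV_mono (by omega)) _ (by positivity) hVV
      exact pow_le_pow_right₀ (by norm_num) (PJ_mono (by omega))
    · rw [not_nonempty_iff_eq_empty] at hne
      rw [hne]
      simp only [sum_empty]
      positivity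
  refine (sum_le_sum hblock).trans (le_of_eq ?_)
  rw [sum_add_distrib, sum_const, card_range, nsmul_eq_mul]
  push_cast
  ring

/-- **the mean, sharp** -/
theorem mean_sharp (A : ℝ) (hA : 0 < A) : ∀ᶠ a : ℕ in atTop, ∀ x : ℕ, a ≤ x →
    |∑ n ∈ Ioc a x, pr A n - ∑ n ∈ Ioc a x, 1 / Real.log n| ≤ (x : ℝ) ^ (1 / 4 : ℝ) := by
  obtain ⟨x₀, hx₀⟩ := eventually_atTop.1 (err_small A hA)
  obtain ⟨x₁, hx₁⟩ := eventually_atTop.1 (pr_small A hA (1 / 2) (by norm_num))
  filter_upwards [eventually_ge_atTop (x₀ + x₁ + 2)] with a ha x hx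
  have h1 := hx₀ x (by omega)
  have h2 := blocks A hA.le a x (by omega) (by omega)
  have h3 := blocks_low A hA.le a x (by omega) (fun n hn => by
    have := hx₁ n (by have := (mem_Ioc.1 hn).1; omega)
    linarith)
  rw [abs_le]
  constructor <;> linarith

end Pool.Agent.T2H62.MN
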